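import Pool.Agent.helper13.U4.Spec

set_option autoImplicit false

namespace Pool.Agent.U4

open Pool.Agent.UL

theorem FLO_log {j τ : ℕ} (h : τ < 2 ^ j) : Nat.log 2 (2 ^ j + τ) = j := by
  apply Nat.log_eq_of_pow_le_of_lt_pow
  · omega
  · rw [pow_succ]
    omega

theorem FLO_b1 {j τ r : ℕ} (h : τ < 2 ^ j) (hg : g τ r = true) : blk (2 ^ j + τ) r = true := by
  unfold blk
  rw [FLO_log h, Nat.add_sub_cancel_left, hg, Bool.true_or]

theorem FLO_b2 {j τ r : ℕ} (h : τ < 2 ^ j) (hg : g τ r = true) :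
    blk (2 ^ j + τ) (2 * 2 ^ j - 1 + r) = true := by
  have h1 : 1 ≤ 2 ^ j := Nat.one_le_two_pow
  unfold blk
  rw [FLO_log h, Nat.add_sub_cancel_left]
  have e1 : 2 * 2 ^ j - 1 + r + 1 - 2 * 2 ^ j = r := by omega
  have e2 : 2 * 2 ^ j ≤ 2 * 2 ^ j - 1 + r + 1 := by omega
  rw [e1, hg, decide_eq_true e2]
  simp

theorem FLO_g0 {τ : ℕ} (h : τ % 2 = 0) : g τ (2 * τ) = true := by
  unfold g
  have e1 : 2 * τ / 4 = τ / 2 := by omega
  have e2 : 2 * τ % 4 = 0 := by omega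
  rw [e1, e2, Nat.choose_self]
  simp

theorem FLO_g1 {τ i : ℕ} (h : τ % 2 = 0) (hi : i ≤ 2) : g (τ + 1) (2 * τ + i) = true := by
  unfold g
  have e1 : (2 * τ + i) / 4 = τ / 2 := by omega
  have e2 : (2 * τ + i) % 4 = i := by omega
  have e3 : (τ + 1) / 2 = τ / 2 := by omega
  have e4 : (τ + 1) % 2 = 1 := by omega
  have e5 : i ≠ 3 := by omega
  rw [e1, e2, e3, e4, Nat.choose_self]
  simp [e5]

/-- every `e ≥ 1` is `2 ^ j + τ` -/
theorem FLO_dec (e : ℕ) (he : 1 ≤ e) : ∃ j τ, e = 2 ^ j + τ ∧ τ < 2 ^ j := by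
  refine ⟨Nat.log 2 e, e - 2 ^ Nat.log 2 e, ?_, ?_⟩
  · have := Nat.pow_log_le_self 2 (by omega : e ≠ 0)
    omega
  · have := Nat.lt_pow_succ_log_self (by norm_num : 1 < 2) e
    rw [Nat.succ_eq_add_one, pow_succ] at this
    omega

theorem FLO_even {j : ℕ} (hj : 1 ≤ j) : 2 ^ j % 2 = 0 := by
  obtain ⟨i, rfl⟩ : ∃ i, j = i + 1 := ⟨j - 1, by omega⟩
  rw [pow_succ]
  omega

theorem FLO (h1 : GPW_stmt) (h2 : LOW_stmt) : FLO_stmt := by
  intro k q h v x hp hx
  obtain ⟨hA, hB, hC⟩ := h2 k q h v x hp hx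
  obtain ⟨-, g2, g3, -, -, g6, g7⟩ := h1
  have hk := hp.hk
  have hh := hp.hh
  have hq := hp.hq
  have hv := hp.hv
  have h4 : 4 ≤ h := by
    rw [hh]
    calc 4 = 2 ^ 2 := by norm_num
      _ ≤ 2 ^ k := Nat.pow_le_pow_right (by norm_num) hk
  have hhq : 2 * h * 7 ≤ 2 * h * q := Nat.mul_le_mul_left _ hq
  have hvl : 14 * h ≤ v := by omega
  have hk1 : 1 ≤ k := by omega
  -- odd times
  have hodd : ∀ t ≤ v, 3 ≤ t → t % 2 = 1 → ∀ r ≤ 2 * h, (∀ d, d % 2 = 1 → g d r = true) →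
      x t r = true := by
    intro t ht ht3 ht1 r hr hg
    obtain ⟨j, τ, hj, hτ⟩ := FLO_dec t (by omega)
    have hj1 : 1 ≤ j := by
      by_contra hc
      have h0 : j = 0 := by omega
      rw [h0, pow_zero] at hj hτ
      omega
    have he := FLO_even hj1
    rw [hB t (by omega) ht r hr, hj]
    exact FLO_b1 hτ (hg τ (by omega))
  refine ⟨?_, ?_, ?_, ?_, ?_, ?_, ?_, ?_, ?_, ?_⟩
  · intro t ht
    rcases Nat.eq_zero_or_pos t with h0 | h0
    · rw [h0, hA 0 (by omega)]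
      rfl
    · obtain ⟨j, τ, hj, hτ⟩ := FLO_dec t h0
      rw [hB t h0 ht 0 (by omega), hj]
      exact FLO_b1 hτ (g6 τ)
  · intro t ht ht1
    by_cases h3 : 3 ≤ t
    · exact hodd t ht h3 ht1 1 (by omega) fun d hd => (g7 d hd).1
    · have h0 : t = 1 := by omega
      rw [h0, hB 1 le_rfl (by omega) 1 (by omega)]
      have := FLO_b2 (j := 0) (τ := 0) (r := 0) (by norm_num) (g6 0)
      simpa using this
  · intro t ht h3 ht1
    exact hodd t ht h3 ht1 2 (by omega) fun d hd => (g7 d hd).2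
  · rw [hA 2 (by omega)]
    decide
  · intro B r hB1 hB2 hr hr3
    have hBh : h ≤ B * h := Nat.le_mul_of_pos_left h hB1
    have hBq : B * h ≤ 2 * q * h := Nat.mul_le_mul_right h hB2
    have e1 : 2 * q * h = 2 * h * q := by ring
    have e2 : (B * h + (h - 1)) % h = h - 1 := by
      rw [Nat.mul_comm, Nat.mul_add_mod]
      exact Nat.mod_eq_of_lt (by omega)
    rw [hC (B * h + (h - 1)) (by omega) (by omega) r hr, e2, hh]
    rw [hh] at hr
    exact (g2 k hk1 r).2 ⟨hr3, hr⟩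
  · intro j hj hjh r hr hr3
    have h5 : 1 ≤ 2 ^ j := Nat.one_le_two_pow
    rw [hB (2 * 2 ^ j - 1) (by omega) (by omega) _ (by omega)]
    have e1 : 2 * 2 ^ j - 1 = 2 ^ j + (2 ^ j - 1) := by omega
    have h6 := FLO_b2 (j := j) (τ := 2 ^ j - 1) (r := r) (by omega) ((g2 j hj r).2 ⟨hr3, hr⟩)
    rw [← e1] at h6
    exact h6
  · intro j hj hjh i hi
    have h5 : 2 ≤ 2 ^ j := by
      calc 2 = 2 ^ 1 := (pow_one 2).symm
        _ ≤ 2 ^ j := Nat.pow_le_pow_right (by norm_num) hj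
    rw [hB (2 * 2 ^ j - 2) (by omega) (by omega) _ (by omega)]
    have e1 : 2 * 2 ^ j - 2 = 2 ^ j + (2 ^ j - 2) := by omega
    have h6 := FLO_b2 (j := j) (τ := 2 ^ j - 2) (r := 4 * i) (by omega) ((g3 j hj i).2 hi)
    rw [← e1] at h6
    exact h6
  · intro i hi
    have e1 : v - 1 = h * (2 * q) + (h - 2) := by
      have : h * (2 * q) = 2 * h * q := by ring
      omega
    have e2 : (v - 1) % h = h - 2 := by
      rw [e1, Nat.mul_add_mod]
      exact Nat.mod_eq_of_lt (by omega)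
    have hp0 : ∀ r, 2 ≤ r → r ≤ 2 * h → r % 4 ≠ 1 → x 0 r = true := by
      intro r h6 h7 h8
      rw [hA r h7]
      unfold p0
      rw [decide_eq_true_eq]
      exact Or.inr ⟨h6, h8⟩
    refine ⟨?_, hp0 _ (by omega) (by omega) (by omega), hp0 _ (by omega) (by omega) (by omega),
      hp0 _ (by omega) (by omega) (by omega)⟩
    rw [hC (v - 1) (by omega) (by omega) (4 * i) (by omega), e2, hh]
    rw [hh] at hi
    exact (g3 k hk1 i).2 hi
  · intro e he0 he2 heh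
    obtain ⟨j, τ, hj, hτ⟩ := FLO_dec e (by omega)
    have hj1 : 1 ≤ j := by
      by_contra hc
      have h0 : j = 0 := by omega
      rw [h0, pow_zero] at hj hτ
      omega
    have hev := FLO_even hj1
    have hτ0 : τ % 2 = 0 := by omega
    have e3 : 2 * e - 1 = 2 * 2 ^ j - 1 + 2 * τ := by
      have : 1 ≤ 2 ^ j := Nat.one_le_two_pow
      omega
    have e4 : 2 * e = 2 * 2 ^ j - 1 + (2 * τ + 1) := by
      have : 1 ≤ 2 ^ j := Nat.one_le_two_pow
      omega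
    have e5 : e + 1 = 2 ^ j + (τ + 1) := by omega
    have hτ1 : τ + 1 < 2 ^ j := by omega
    refine ⟨?_, ?_, ?_⟩
    · rw [hB e (by omega) (by omega) (2 * e - 1) (by omega), e3, hj]
      exact FLO_b2 hτ (FLO_g0 hτ0)
    · rw [hB (e + 1) (by omega) (by omega) (2 * e - 1) (by omega), e3, e5]
      exact FLO_b2 hτ1 (FLO_g1 (i := 0) hτ0 (by omega))
    · rw [hB (e + 1) (by omega) (by omega) (2 * e) (by omega), e5, e4]
      exact FLO_b2 hτ1 (FLO_g1 (i := 1) hτ0 (by omega))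
  · intro e he0 he2 heh
    obtain ⟨j, τ, hj, hτ⟩ := FLO_dec e (by omega)
    have hj1 : 1 ≤ j := by
      by_contra hc
      have h0 : j = 0 := by omega
      rw [h0, pow_zero] at hj hτ
      omega
    have hev := FLO_even hj1
    have hτ0 : τ % 2 = 0 := by omega
    have e4 : 2 * e + 1 = 2 * 2 ^ j - 1 + (2 * τ + 2) := by
      have : 1 ≤ 2 ^ j := Nat.one_le_two_pow
      omega
    have e5 : e + 1 = 2 ^ j + (τ + 1) := by omega
    have hτ1 : τ + 1 < 2 ^ j := by omega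
    rw [hB (e + 1) (by omega) (by omega) (2 * e + 1) (by omega), e5, e4]
    exact FLO_b2 hτ1 (FLO_g1 (i := 2) hτ0 (by omega))

end Pool.Agent.U4
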